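import Pool.Agent.Helper41.PD.Defs
import Pool.Agent.Helper41.PD.Steer
import Pool.Agent.Helper52.LD7.STP

/-!
# Project PD, block STPT: the abstract step with targets
-/

set_option autoImplicit false

namespace Pool.Agent.Helper78.PD

open Set MeasureTheory Filter Topology
open Pool.Agent.Helper41.LD (av)
open Pool.Agent.Helper41.LD4 (A M W Pot NB NBg)
open Pool.Agent.Helper41.LD6
open Pool.Agent.Helper41.PD (PotT GoodT Slow steer_stepT)
open Pool.Agent.Helper46.LD4 (W_nonneg)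
open Pool.Agent.Helper46.LD6 (W_le W_mean)
open Pool.Agent.Helper68.LD6 (M_var)
open Pool.Agent.Helper9.LD6 (M_children M_inc)

open Classical in
theorem stepT {ι : Type} (P : Finset ι) (hP : P.Nonempty) {G : ι → ℕ → ℝ → ℝ} {w v ω : ι → ℝ} {g g' : ι → ℝ} {η : ℝ} {H n L' r L B E : ℕ} {a ℓ lam : ℝ}
    (hE : 2 ≤ E) (hr1 : 1 ≤ r) (hB : 1 ≤ B) (hw1 : ∀ p ∈ P, w p = 2 * v p) (hv0 : ∀ p ∈ P, 0 < v p) (hv1 : ∀ p ∈ P, v p ≤ 1)
    (hω0 : ∀ p ∈ P, 0 < ω p) (hω1 : ∀ p ∈ P, ω p ≤ 1) (hμ0 : ∀ p ∈ P, (1 / 2) ^ E ≤ ω p ^ 2 * v p) (hμ : ∑ p ∈ P, ω p ^ 2 * v p ≤ 1)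
    (hL' : 3 * r ≤ L' ∧ L' ≤ L) (hr2 : (r : ℝ) ^ 2 ≤ L) (hlam1 : lam * (16384 * L) ≤ 1) (hlam2 : (1 / 2) ^ E ≤ lam)
    (hw : ∀ p ∈ P, Wq (G p) (w p) η H n a ℓ) (hw' : ∀ p ∈ P, ∀ b < B, Wq (G p) (w p) η H (n + L') (a + b * (ℓ / B)) (ℓ / B))
    (hgain : ∀ g : ι → ℝ, 1 / 2 * (∑ p ∈ P, |g p| * (ω p * v p)) * B ≤
      ∑ b ∈ Finset.range B, |∑ p ∈ P, g p * (M (G p) (a + b * (ℓ / B)) (ℓ / B) - M (G p) a ℓ)|)
    (hNB : ∀ p ∈ P, NB (G p) n r a ℓ) (hg : ∀ p ∈ P, |g' p - g p| ≤ 33 / 2 * (lam * L) * (ω p * v p))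
    (hPot : ∑ p ∈ P, PotT (G p) n r (lam * ω p) (g p) a ℓ ≤ 16 ^ E) :
    2 * (1 / 2 : ℝ) ^ (3 * E) * B ≤ (((Finset.range B).filter fun b : ℕ =>
      ∑ p ∈ P, PotT (G p) (n + L') r (lam * ω p) (g' p) (a + b * (ℓ / B)) (ℓ / B) ≤ 16 ^ E).card : ℝ) := by
  obtain ⟨p₀, hp₀⟩ := hP
  have hB1 : (1 : ℝ) ≤ B := by exact_mod_cast hB
  have hr1' : (1 : ℝ) ≤ r := by exact_mod_cast hr1
  have hL1 : ((L' : ℕ) : ℝ) ≤ L := by exact_mod_cast hL'.2
  have h3r : 3 * (r : ℝ) ≤ L := by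
    have := hL'.1.trans hL'.2
    exact_mod_cast this
  have hL0 : (0 : ℝ) < L := by linarith
  have hℓ : 0 < ℓ := (hw p₀ hp₀).pos
  have hℓB : 0 < ℓ / B := by positivity
  have hhp : 0 < (1 / 2 : ℝ) ^ E := by positivity
  have hlam0 : 0 < lam := hhp.trans_le hlam2
  have hlamL : lam * L ≤ 1 / 16384 := by linarith
  have hlamr : lam * r ≤ 1 / 2 := by
    have h1 : lam * r ≤ lam * L := by
      have : (r : ℝ) ≤ L := by linarith
      gcongr
    linarith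
  have hhL : (1 / 2 : ℝ) ^ E * (16384 * L) ≤ 1 := by
    calc (1 / 2 : ℝ) ^ E * (16384 * L) ≤ lam * (16384 * L) := by gcongr
      _ ≤ 1 := hlam1
  have h3E : (1 / 2 : ℝ) ^ (3 * E) = (1 / 2) ^ E * (1 / 2) ^ E * (1 / 2) ^ E := by
    rw [← pow_add, ← pow_add]
    congr 1
    ring
  have hhle : (1 / 2 : ℝ) ^ E ≤ 1 := pow_le_one₀ (by norm_num) (by norm_num)
  have key := steer_stepT P hB (fun p => ω p * (M (G p) a ℓ - g p)) (fun p => ω p ^ 2 * W (G p) n r a ℓ) (fun p => ω p ^ 2 * v p)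
    (fun p b => ω p * (M (G p) (a + b * (ℓ / B)) (ℓ / B) - M (G p) a ℓ))
    (fun p b => ω p ^ 2 * W (G p) (n + L') r (a + b * (ℓ / B)) (ℓ / B)) (fun p => ω p * (g p - g' p)) (lam := lam) (D := 5 * (L : ℝ)) (E₁ := 264 * (L : ℝ))
    (E₂ := 2 * (r : ℝ) ^ 2) (E₃ := (r : ℝ) ^ 2) (γ := 1 / 2) (τ := 16 ^ E) (μ₀ := (1 / 2) ^ E) (K := 1)
    (ρ := 2 * (1 / 2) ^ (3 * E))
    hlam0 (by positivity) (by linarith) (by positivity) (by positivity) (by norm_num) hhp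
    (fun p hp => by
      rw [← Finset.mul_sum, Finset.sum_sub_distrib, M_children (hw p hp) hB (hw' p hp), Finset.sum_const, Finset.card_range,
        nsmul_eq_mul]
      ring)
    (fun p hp b hb => by
      have h1 := M_inc (hw p hp) (hNB p hp) hB hb (hw' p hp b hb)
      have h2 : w p ≤ 2 := by rw [hw1 p hp]; linarith [hv1 p hp]
      rw [abs_mul, abs_of_pos (hω0 p hp)]
      calc ω p * |M (G p) (a + b * (ℓ / B)) (ℓ / B) - M (G p) a ℓ|
          ≤ 1 * |M (G p) (a + b * (ℓ / B)) (ℓ / B) - M (G p) a ℓ| :=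
            mul_le_mul_of_nonneg_right (hω1 p hp) (abs_nonneg _)
        _ ≤ 5 * L := by linarith)
    (fun p hp => by
      have h1 := M_var (hw p hp) (hNB p hp) hB (hw' p hp) (by have := hL'.1; omega)
      have hv := hv0 p hp
      have hv' := hv1 p hp
      have h5 : 44 * (L' : ℝ) * w p * (1 + w p) ≤ 264 * L * v p := by
        rw [hw1 p hp]
        calc 44 * (L' : ℝ) * (2 * v p) * (1 + 2 * v p) ≤ 44 * (L : ℝ) * (2 * v p) * (1 + 2 * 1) := by gcongr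
          _ = _ := by ring
      have h6 : ∑ b ∈ Finset.range B, (ω p * (M (G p) (a + b * (ℓ / B)) (ℓ / B) - M (G p) a ℓ)) ^ 2 =
          ω p ^ 2 * ∑ b ∈ Finset.range B, (M (G p) (a + b * (ℓ / B)) (ℓ / B) - M (G p) a ℓ) ^ 2 := by
        rw [Finset.mul_sum]
        exact Finset.sum_congr rfl fun b _ => by ring
      rw [h6]
      calc ω p ^ 2 * ∑ b ∈ Finset.range B, (M (G p) (a + b * (ℓ / B)) (ℓ / B) - M (G p) a ℓ) ^ 2
          ≤ ω p ^ 2 * (B * (2 * W (G p) n r a ℓ + 44 * L' * w p * (1 + w p))) := by gcongr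
        _ ≤ ω p ^ 2 * (B * (2 * W (G p) n r a ℓ + 264 * L * v p)) := by gcongr
        _ = _ := by ring)
    (fun p _ => mul_nonneg (by positivity) (W_nonneg (G p) n r a hℓ))
    (fun p hp => by
      have h1 : ω p ^ 2 ≤ 1 := pow_le_one₀ (hω0 p hp).le (hω1 p hp)
      calc ω p ^ 2 * W (G p) n r a ℓ ≤ 1 * W (G p) n r a ℓ :=
            mul_le_mul_of_nonneg_right h1 (W_nonneg (G p) n r a hℓ)
        _ ≤ (r : ℝ) ^ 2 := by rw [one_mul]; exact W_le (hw p hp) n r)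
    (fun p _ b _ => mul_nonneg (by positivity) (W_nonneg (G p) (n + L') r _ hℓB))
    (fun p hp b hb => by
      have h1 : ω p ^ 2 ≤ 1 := pow_le_one₀ (hω0 p hp).le (hω1 p hp)
      calc ω p ^ 2 * W (G p) (n + L') r (a + b * (ℓ / B)) (ℓ / B) ≤ 1 * W (G p) (n + L') r (a + b * (ℓ / B)) (ℓ / B) :=
            mul_le_mul_of_nonneg_right h1 (W_nonneg (G p) (n + L') r _ hℓB)
        _ ≤ (r : ℝ) ^ 2 := by rw [one_mul]; exact W_le (hw' p hp b hb) (n + L') r)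
    (fun p hp => by
      have h1 := W_mean (hw p hp) (r := r) (L := L') hB (by have := hL'.1; omega)
      rw [← Finset.mul_sum]
      calc ω p ^ 2 * ∑ b ∈ Finset.range B, W (G p) (n + L') r (a + b * (ℓ / B)) (ℓ / B)
          ≤ ω p ^ 2 * (B * ((r : ℝ) ^ 2 * w p)) := by gcongr
        _ = B * (2 * (r : ℝ) ^ 2 * (ω p ^ 2 * v p)) := by rw [hw1 p hp]; ring)
    (fun g => by
      have h1 := hgain fun p => g p * ω p
      calc 1 / 2 * (∑ p ∈ P, |g p| * (ω p ^ 2 * v p)) * B = 1 / 2 * (∑ p ∈ P, |g p * ω p| * (ω p * v p)) * B := by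
            congr 2
            refine Finset.sum_congr rfl fun p hp => ?_
            rw [abs_mul, abs_of_pos (hω0 p hp)]
            ring
        _ ≤ _ := h1
        _ = _ := by
            refine Finset.sum_congr rfl fun b _ => ?_
            congr 1
            refine Finset.sum_congr rfl fun p _ => ?_
            ring)
    hμ0 hμ
    (by
      have h1 : (1 / 2 : ℝ) ^ E * 16 ^ E = 8 ^ E := by
        rw [← mul_pow]
        norm_num
      rw [h1]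
      calc (16 : ℝ) * 1 ≤ 8 ^ 2 := by norm_num
        _ ≤ 8 ^ E := pow_le_pow_right₀ (by norm_num) hE)
    one_pos
    (by
      have h2 : 0 ≤ lam * r := by positivity
      nlinarith)
    (by
      have h1 : 264 * (L : ℝ) + 8 * (2 * (r : ℝ) ^ 2) ≤ 280 * L := by linarith
      calc 28 * lam * (264 * (L : ℝ) + 8 * (2 * (r : ℝ) ^ 2)) ≤ 28 * lam * (280 * L) := by gcongr
        _ = 7840 * (lam * L) := by ring
        _ ≤ 1 / 2 := by linarith)
    (fun p hp => by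
      have h1 := hg p hp
      rw [abs_mul, abs_of_pos (hω0 p hp), abs_sub_comm]
      calc ω p * |g' p - g p| ≤ ω p * (33 / 2 * (lam * L) * (ω p * v p)) := mul_le_mul_of_nonneg_left h1 (hω0 p hp).le
        _ = lam * (264 * (L : ℝ)) * (ω p ^ 2 * v p) / 16 := by ring)
    (fun p hp => by
      have h1 := hg p hp
      have h2 : ω p * v p ≤ 1 := mul_le_one₀ (hω1 p hp) (hv0 p hp).le (hv1 p hp)
      have h3 : |g' p - g p| ≤ 1 := by
        have h4 : 33 / 2 * (lam * L) * (ω p * v p) ≤ 33 / 2 * (lam * L) * 1 := mul_le_mul_of_nonneg_left h2 (by positivity)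
        linarith
      rw [abs_mul, abs_of_pos (hω0 p hp), abs_sub_comm]
      have h5 : lam ≤ 1 / 8 := by
        have h6 : lam * 1 ≤ lam * L := mul_le_mul_of_nonneg_left (by linarith) hlam0.le
        linarith
      calc lam * (ω p * |g' p - g p|) ≤ 1 / 8 * (1 * 1) := by
            refine mul_le_mul h5 (mul_le_mul (hω1 p hp) h3 (abs_nonneg _) zero_le_one) (mul_nonneg (hω0 p hp).le (abs_nonneg _)) (by norm_num)
        _ = 1 / 8 := by norm_num)
    (by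
      refine le_trans (le_of_eq ?_) hPot
      refine Finset.sum_congr rfl fun p _ => ?_
      unfold PotT
      rw [mul_pow, mul_assoc lam (ω p)]
      ring)
    (by
      rw [h3E]
      have h1 : (1 / 2 : ℝ) ^ E ≤ 1 / 4 := by
        calc (1 / 2 : ℝ) ^ E ≤ (1 / 2) ^ 2 := pow_le_pow_of_le_one (by norm_num) (by norm_num) hE
          _ = 1 / 4 := by norm_num
      have h2 : (1 / 2 : ℝ) ^ E * (1 / 2) ^ E ≤ 1 / 4 * (1 / 4) := by gcongr
      have h3 : (1 / 2 : ℝ) ^ E * (1 / 2) ^ E * (1 / 2) ^ E ≤ 1 / 4 * (1 / 4) * (1 / 4) := by gcongr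
      linarith)
    (by
      rw [h3E]
      have h2 : (1 / 2 : ℝ) ^ E * (1 / 2) ^ E ≤ lam * lam := by gcongr
      have h4 : 0 ≤ lam * lam * (1 / 2 : ℝ) ^ E := by positivity
      calc 2 * ((1 / 2 : ℝ) ^ E * (1 / 2) ^ E * (1 / 2) ^ E) ≤ 2 * (lam * lam * (1 / 2) ^ E) := by gcongr
        _ ≤ 33 * (lam * lam * (1 / 2) ^ E) * 1 := by linarith
        _ ≤ 33 * (lam * lam * (1 / 2) ^ E) * L := by
            gcongr
            linarith
        _ = lam ^ 2 * (264 * L) * (1 / 2) ^ E / 8 := by ring)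
    (by
      rw [h3E, le_div_iff₀ (by positivity)]
      have h5 : 2 * ((1 / 2 : ℝ) ^ E * (1 / 2) ^ E * (1 / 2) ^ E) * (8 * (5 * (L : ℝ))) =
          (1 / 2) ^ E * ((1 / 2 : ℝ) ^ E * (1 / 2) ^ E * (80 * L)) := by ring
      rw [h5, mul_comm (1 / 2 : ℝ) ((1 / 2) ^ E)]
      apply mul_le_mul_of_nonneg_left _ hhp.le
      calc (1 / 2 : ℝ) ^ E * (1 / 2) ^ E * (80 * L) ≤ (1 / 2) ^ E * 1 * (80 * L) := by gcongr
        _ ≤ 1 / 2 := by linarith)
  refine key.trans (Nat.cast_le.2 (Finset.card_le_card ?_))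
  intro b hb
  rw [Finset.mem_filter] at hb ⊢
  refine ⟨hb.1, ?_⟩
  refine le_trans (le_of_eq ?_) hb.2
  refine Finset.sum_congr rfl fun p _ => ?_
  unfold PotT
  have e1 : ω p * (M (G p) a ℓ - g p) + ω p * (M (G p) (a + b * (ℓ / B)) (ℓ / B) - M (G p) a ℓ) + ω p * (g p - g' p) =
      ω p * (M (G p) (a + b * (ℓ / B)) (ℓ / B) - g' p) := by ring
  rw [e1, mul_pow, mul_assoc lam (ω p)]
  ring

end Pool.Agent.Helper78.PD
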